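import Pool.Agent.KS6_97.Unc.IC2

/-!
# Isoperimetry of log-concave measures and the mean of the inverse curvature

Let `μ` be a probability measure on `ℝⁿ` with the density `exp (-W) g`, `g` log-concave (no smoothness,
no positivity: e.g. the indicator function of a convex set times a log-concave function) and `W` smooth
with a positive definite Hessian matrix `H(x)` at every point. If `E_μ θ · H(x)⁻¹ θ ≤ M |θ|²` for every
vector `θ`, i.e. if the norm of the matrix `E_μ H⁻¹` is at most `M`, then the Poincare constant of `μ` is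
at most `M` and the isoperimetric constant is at least `1 / (14 √M)`.

By the inequality of Brascamp and Lieb the covariance matrix `A` of `μ` satisfies `A ≤ E_μ H⁻¹`. The
theorem gives the inequality of Kannan, Lovasz and Simonovits for all measures for which the norms of
the two sides are comparable: `‖E_μ H⁻¹‖ ≤ K ‖A‖` implies `ψ_μ √‖A‖ ≥ 1 / (14 √K)`. The lower bound for the curvature (Bakry-Emery,
Brascamp-Lieb) gives only `sup ‖H⁻¹‖` in place of `‖E_μ H⁻¹‖`, and the harmonic mean of the smallest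
eigenvalue of the curvature (Veysseire) gives only `E_μ ‖H⁻¹‖`; for a product measure these quantities
depend on the dimension, `‖E_μ H⁻¹‖` does not. The theorem contains both (constants `M` included) and is
stable under products. For `W(x) = ∑ φ(⟪u_i, x⟫)`, `∑ u_i ⊗ u_i = I`, it gives the dimension free bound
`max_i E_μ 1 / φ''(⟪u_i, x⟫)`, whatever the log-concave factor `g` is.

Method. Let `λ⁻¹` be the Poincare constant and `f` a nearly optimal function. By Bochner's formula
`E |D² f|² + E ⟨Hess V ∇ f, ∇ f⟩ ≈ λ E |∇ f|²`, and by the Poincare inequality for the components of `∇ f`,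
`E |D² f|² ≥ λ (E |∇ f|² - |E ∇ f|²)`. So `E ⟨Hess V ∇ f, ∇ f⟩ ≤ λ |E ∇ f|²`. By the Cauchy-Schwarz
inequality `|E ∇ f|² ≤ ‖E (Hess V)⁻¹‖ E ⟨Hess V ∇ f, ∇ f⟩`, hence `λ ‖E (Hess V)⁻¹‖ ≥ 1`. Instead of an
optimal function a dual formulation (density of the range of the generator) is used, module
`KS6_97/Unc/MI`. The general case is by adding a small Gaussian factor, mollifying `g` and truncation to
balls (modules `IC0`, `IC1`, `IC2a`, `IC`, `IC2`, by helper12). The passage to measurable sets is module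
`Q289/LD` of the starting files. The theorem is the main tool of the hand-ins `Unconditional` and
`Orthant`.

Authors: helper97, helper12.
-/

set_option autoImplicit false

namespace Pool.Agent.Results.MP_6d896a_gt.InverseCurvature

open MeasureTheory Set
open scoped ENNReal InnerProductSpace ContDiff Matrix

/-- Euclidean space of dimension `n` -/
abbrev Euc (n : ℕ) : Type := EuclideanSpace ℝ (Fin n)

/-- `g` is nonnegative, measurable and log-concave -/
structure LogConcave {n : ℕ} (g : Euc n → ℝ) : Prop where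
  nonneg : ∀ x, 0 ≤ g x
  meas : Measurable g
  logc : ∀ x y, ∀ t : ℝ, 0 < t → t < 1 → g x ^ (1 - t) * g y ^ t ≤ g ((1 - t) • x + t • y)

/-- the Hessian matrix `(∂_i ∂_j W(x))` -/
noncomputable def hess {n : ℕ} (W : Euc n → ℝ) (x : Euc n) : Matrix (Fin n) (Fin n) ℝ :=
  Matrix.of fun i j =>
    fderiv ℝ (fun y => fderiv ℝ W y (EuclideanSpace.single j 1)) x (EuclideanSpace.single i 1)

/-- Poincare inequality: `Var f ≤ D E ‖∇ f‖²` for all `C¹` functions with `f, ‖∇ f‖ ∈ L²(μ)`. -/
def PoincareLe {n : ℕ} (μ : Measure (Euc n)) (D : ℝ) : Prop :=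
  ∀ f : Euc n → ℝ, ContDiff ℝ 1 f → MemLp f 2 μ → MemLp (fun x => ‖fderiv ℝ f x‖) 2 μ →
    ProbabilityTheory.variance f μ ≤ D * ∫ x, ‖fderiv ℝ f x‖ ^ 2 ∂μ

/-- Minkowski (exterior) boundary measure `μ⁺(S)` -/
noncomputable def bdry {n : ℕ} (μ : Measure (Euc n)) (S : Set (Euc n)) : ℝ≥0∞ :=
  Filter.liminf (fun ε : ℝ => (μ (Metric.thickening ε S) - μ S) / ENNReal.ofReal ε)
    (nhdsWithin 0 (Set.Ioi 0))

/-- the isoperimetric (Cheeger) constant of `μ` is at least `c`: `c min(μ S, μ Sᶜ) ≤ μ⁺(S)` for all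
measurable sets `S` -/
def CheegerGe {n : ℕ} (μ : Measure (Euc n)) (c : ℝ) : Prop :=
  ∀ S : Set (Euc n), MeasurableSet S → ENNReal.ofReal c * min (μ S) (μ Sᶜ) ≤ bdry μ S

theorem logConcave_mul {n : ℕ} {W g : Euc n → ℝ} (hW : ContDiff ℝ ∞ W)
    (hpd : ∀ x, (hess W x).PosDef) (hg : LogConcave g) :
    LogConcave fun x => Real.exp (-W x) * g x := by
  have hconv : ConvexOn ℝ univ W := Pool.Agent.KS6_97.Unc.convex_of_hs hW fun x v =>
    Pool.Agent.KS6_97.Unc.ICx.pd_nonneg (hpd x) v
  refine ⟨fun x => mul_nonneg (Real.exp_nonneg _) (hg.nonneg x),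
    hW.continuous.neg.rexp.measurable.mul hg.meas, fun x y t h0 h1 => ?_⟩
  rw [Real.mul_rpow (Real.exp_nonneg _) (hg.nonneg x),
    Real.mul_rpow (Real.exp_nonneg _) (hg.nonneg y), ← Real.exp_mul, ← Real.exp_mul]
  have h2 := hconv.2 (mem_univ x) (mem_univ y) (by linarith : (0 : ℝ) ≤ 1 - t) h0.le (by ring)
  rw [smul_eq_mul, smul_eq_mul] at h2
  calc Real.exp (-W x * (1 - t)) * g x ^ (1 - t) * (Real.exp (-W y * t) * g y ^ t)
      = Real.exp (-W x * (1 - t) + -W y * t) * (g x ^ (1 - t) * g y ^ t) := by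
        rw [Real.exp_add]; ring
    _ ≤ Real.exp (-W ((1 - t) • x + t • y)) * g ((1 - t) • x + t • y) := by
        refine mul_le_mul (Real.exp_le_exp.2 (by linarith)) (hg.logc x y t h0 h1) ?_
          (Real.exp_nonneg _)
        exact mul_nonneg (Real.rpow_nonneg (hg.nonneg _) _) (Real.rpow_nonneg (hg.nonneg _) _)

/-- **The mean of the inverse curvature bounds the Poincare and isoperimetric constants.**
Let `μ` be a probability measure on `ℝⁿ` with density `exp (-W) g`, `W` smooth with positive definite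
Hessian matrices `H(x)`, `g` log-concave. If `E_μ θ · H(x)⁻¹ θ ≤ M |θ|²` for all vectors `θ`, then the
Poincare constant of `μ` is at most `M` and the isoperimetric constant is at least `1 / (14 √M)`. -/
theorem result : ∀ (n : ℕ) (W g : Euc n → ℝ), ContDiff ℝ ∞ W → (∀ x, (hess W x).PosDef) →
    LogConcave g → ∀ μ : Measure (Euc n),
    μ = volume.withDensity (fun x => ENNReal.ofReal (Real.exp (-W x) * g x)) →
    IsProbabilityMeasure μ → ∀ M : ℝ, 0 ≤ M →
    (∀ θ : Fin n → ℝ, ∫⁻ x, ENNReal.ofReal (θ ⬝ᵥ ((hess W x)⁻¹ *ᵥ θ)) ∂μ ≤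
      ENNReal.ofReal (M * (θ ⬝ᵥ θ))) →
    PoincareLe μ M ∧ CheegerGe μ (1 / (14 * Real.sqrt M)) := by
  intro n W g hW hpd hg μ hμ hP M hM0 hM
  have hg' : Pool.Agent.Q188.TS.LCF g := ⟨hg.nonneg, hg.meas, hg.logc⟩
  have hlc := logConcave_mul hW hpd hg
  have hDen : Q289.LD.Den (κ := Fin n) fun x => Real.exp (-W x) * g x := by
    refine ⟨hlc.nonneg, hlc.meas, hlc.logc, ?_⟩
    have h1 : μ univ = 1 := measure_univ
    rw [hμ, withDensity_apply _ MeasurableSet.univ, Measure.restrict_univ] at h1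
    rw [integral_eq_lintegral_of_nonneg_ae (Filter.Eventually.of_forall hlc.nonneg)
      hlc.meas.aestronglyMeasurable, h1, ENNReal.toReal_one]
  have hPD : PoincareLe μ M := by
    intro f hf h2 h3
    rw [ProbabilityTheory.variance_eq_sub h2]
    exact Pool.Agent.KS6_97.Unc.ic2 hg' hW hpd hμ hM0 hM hf h2 h3.integrable_sq
  refine ⟨hPD, ?_⟩
  intro S hS
  rcases hM0.eq_or_lt with h | h
  · rw [← h, Real.sqrt_zero, mul_zero, div_zero, ENNReal.ofReal_zero, zero_mul]
    exact zero_le
  have h1 := Pool.Agent.Q188.TS.Iso.iso_gen hDen hμ h (fun f hf h2 => by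
    have hdc : Continuous fun x => ‖fderiv ℝ f x‖ ^ 2 :=
      (hf.continuous_fderiv one_ne_zero).norm.pow 2
    rcases eq_or_ne (∫⁻ x, ENNReal.ofReal (‖fderiv ℝ f x‖ ^ 2) ∂μ) ⊤ with h4 | h4
    · rw [h4, ENNReal.mul_top (ENNReal.ofReal_pos.2 h).ne']
      exact le_top
    · have hi : Integrable (fun x => ‖fderiv ℝ f x‖ ^ 2) μ := by
        refine ⟨hdc.aestronglyMeasurable, ?_⟩
        rw [hasFiniteIntegral_iff_ofReal (Filter.Eventually.of_forall fun x => sq_nonneg _)]
        exact lt_top_iff_ne_top.2 h4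
      rw [← ofReal_integral_eq_lintegral_ofReal hi
        (Filter.Eventually.of_forall fun x => sq_nonneg _), ← ENNReal.ofReal_mul h.le]
      refine ENNReal.ofReal_le_ofReal ?_
      refine hPD f hf h2 ?_
      exact (memLp_two_iff_integrable_sq
        (hf.continuous_fderiv one_ne_zero).norm.aestronglyMeasurable).2 hi) hS
  rw [div_div] at h1
  exact h1

end Pool.Agent.Results.MP_6d896a_gt.InverseCurvature
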