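import Pool.Agent.KS6_97.Sch.Fin2
import Pool.Agent.KS6_97.Unc.ORF

/-!
# The Kannan-Lovasz-Simonovits inequality for decreasing log-concave densities on the orthant

Let `μ` be a probability measure on `ℝⁿ` with a log-concave density `g` which vanishes outside of the
orthant `{x : x_i ≥ 0}` and does not increase there if a coordinate is increased (for example the
uniform measure on a convex body `K ⊆ [0, ∞)ⁿ` such that `0 ≤ y ≤ x ∈ K` implies `y ∈ K`: a convex corner
or anti-blocking body). Then for all smooth `f`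

`Var f ≤ 72 e² ∑ i, Var(x_i) E (∂_i f)²`,

so that the Poincare constant of `μ` is at most `533 max_i Var(x_i)` and the isoperimetric constant is
at least `1 / (324 √(max_i Var(x_i)))`, in all dimensions.

Method. (1) For every log-concave measure `e^(-V) dx` with `V` smooth and strictly convex, the Poincare
constant is at most `‖E (Hess V)⁻¹‖_op` (the Bochner formula for `L u = f`, the inequality
`(E ⟨∇ f, ∇ u⟩)² ≤ E ⟨(Hess V)⁻¹ ∇ f, ∇ f⟩ · E ⟨Hess V ∇ u, ∇ u⟩` and the Poincare inequality for the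
components of `∇ u`); it is proved here for a log-concave density times the weight
`exp (-∑ √(1 + w_i²))`. (2) The substitution `x_i = ψ(w_i)`, `ψ' = exp (w - √(1 + w²))`, is convex, so it
turns `g` into a log-concave density with this weight, and it does not increase derivatives. (3) The
means of `(1 + w_i²)^(3/2)` are bounded by applying (1) to the function `(1 + w_i²)^(3/4)` of the
coordinate with the largest mean. (4) `E x_i² ≤ 4 Var x_i`, by comparison of `μ` with its image under
contractions of one coordinate.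
-/

set_option autoImplicit false

namespace Pool.Agent.Results.MP_6d896a_gt.Orthant

open MeasureTheory Set
open scoped ENNReal InnerProductSpace

/-- Euclidean space of dimension `n` -/
abbrev Euc (n : ℕ) : Type := EuclideanSpace ℝ (Fin n)

/-- `g` is nonnegative, measurable and log-concave -/
structure LogConcave {n : ℕ} (g : Euc n → ℝ) : Prop where
  nonneg : ∀ x, 0 ≤ g x
  meas : Measurable g
  logc : ∀ x y, ∀ t : ℝ, 0 < t → t < 1 → g x ^ (1 - t) * g y ^ t ≤ g ((1 - t) • x + t • y)

/-- `g` vanishes outside of the orthant `{x : x_i ≥ 0}`, and on the orthant `g y ≤ g x` if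
`x_i ≤ y_i` for all `i` -/
structure DecreasingOnOrthant {n : ℕ} (g : Euc n → ℝ) : Prop where
  supp : ∀ x : Euc n, (∃ i, x i < 0) → g x = 0
  anti : ∀ x y : Euc n, (∀ i, 0 ≤ x i) → (∀ i, x i ≤ y i) → g y ≤ g x

/-- partial derivative -/
noncomputable def pderiv {n : ℕ} (f : Euc n → ℝ) (i : Fin n) (x : Euc n) : ℝ :=
  fderiv ℝ f x (EuclideanSpace.single i 1)

/-- the covariance matrix of `μ` has norm at most `s` -/
def CovLe {n : ℕ} (μ : Measure (Euc n)) (s : ℝ) : Prop :=
  ∀ θ : Euc n, ‖θ‖ = 1 → ProbabilityTheory.variance (fun x => ⟪x, θ⟫_ℝ) μ ≤ s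

/-- Poincare inequality: `Var f ≤ D E ‖∇ f‖²` for all `C¹` functions with `f, ‖∇ f‖ ∈ L²(μ)`. -/
def PoincareLe {n : ℕ} (μ : Measure (Euc n)) (D : ℝ) : Prop :=
  ∀ f : Euc n → ℝ, ContDiff ℝ 1 f → MemLp f 2 μ → MemLp (fun x => ‖fderiv ℝ f x‖) 2 μ →
    ProbabilityTheory.variance f μ ≤ D * ∫ x, ‖fderiv ℝ f x‖ ^ 2 ∂μ

/-- Minkowski (exterior) boundary measure `μ⁺(S)` -/
noncomputable def bdry {n : ℕ} (μ : Measure (Euc n)) (S : Set (Euc n)) : ℝ≥0∞ :=
  Filter.liminf (fun ε : ℝ => (μ (Metric.thickening ε S) - μ S) / ENNReal.ofReal ε)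
    (nhdsWithin 0 (Set.Ioi 0))

/-- the isoperimetric (Cheeger) constant of `μ` is at least `c`: `c min(μ S, μ Sᶜ) ≤ μ⁺(S)` for all
measurable sets `S` -/
def CheegerGe {n : ℕ} (μ : Measure (Euc n)) (c : ℝ) : Prop :=
  ∀ S : Set (Euc n), MeasurableSet S → ENNReal.ofReal c * min (μ S) (μ Sᶜ) ≤ bdry μ S

/-- **KLS on the orthant, with an absolute constant.** For all `n` and every log-concave probability
density `g` on `ℝⁿ` which vanishes outside of the orthant and is nonincreasing there, with `μ = g dx`: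
(1) `Var f ≤ 72 e² ∑ i, Var(x_i) E (∂_i f)²` for all `C¹` functions with `f, ‖∇ f‖ ∈ L²(μ)`;
(2) if `Var(x_i) ≤ s` for all `i` then the Poincare constant of `μ` is at most `533 s` and the
isoperimetric constant is at least `1 / (324 √s)`;
(3) in particular this is so if the covariance matrix of `μ` has norm at most `s`. -/
theorem result (n : ℕ) (g : Euc n → ℝ) (hg : LogConcave g) (ho : DecreasingOnOrthant g)
    (μ : Measure (Euc n)) (hμ : μ = volume.withDensity (fun x => ENNReal.ofReal (g x)))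
    (hP : IsProbabilityMeasure μ) :
    (∀ f : Euc n → ℝ, ContDiff ℝ 1 f → MemLp f 2 μ → MemLp (fun x => ‖fderiv ℝ f x‖) 2 μ →
      ProbabilityTheory.variance f μ ≤ 72 * Real.exp 2 *
        ∑ i, ProbabilityTheory.variance (fun x : Euc n => x i) μ * ∫ x, pderiv f i x ^ 2 ∂μ) ∧
    (∀ s : ℝ, 0 < s → (∀ i, ProbabilityTheory.variance (fun x : Euc n => x i) μ ≤ s) →
      PoincareLe μ (533 * s) ∧ CheegerGe μ (1 / (324 * Real.sqrt s))) ∧
    (∀ s : ℝ, 0 < s → CovLe μ s → PoincareLe μ (533 * s) ∧ CheegerGe μ (1 / (324 * Real.sqrt s))) := by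
  have hg' : Pool.Agent.Q188.TS.LCF g := ⟨hg.nonneg, hg.meas, hg.logc⟩
  have ho' : Pool.Agent.KS6_97.Unc.Orth g := ⟨ho.supp, ho.anti⟩
  have hμ' : μ = Pool.Agent.H212R2.KLS.mu g := hμ
  have hDen : Q289.LD.Den (κ := Fin n) g := by
    refine ⟨hg.nonneg, hg.meas, hg.logc, ?_⟩
    have h1 : μ univ = 1 := measure_univ
    rw [hμ, withDensity_apply _ MeasurableSet.univ, Measure.restrict_univ] at h1
    rw [integral_eq_lintegral_of_nonneg_ae (Filter.Eventually.of_forall hg.nonneg)
      hg.meas.aestronglyMeasurable, h1, ENNReal.toReal_one]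
  have hlin : ∀ w : Euc n, MemLp (fun x => ⟪w, x⟫_ℝ) 2 μ := fun w =>
    Q289.LD.memLp_lin Q289.LD.tLIM hDen hμ w
  have hcoord : ∀ i, MemLp (fun x : Euc n => x i) 2 μ := fun i => by
    have := hlin (EuclideanSpace.single i 1)
    have e : (fun x : Euc n => ⟪EuclideanSpace.single i (1 : ℝ), x⟫_ℝ) = fun x => x i := by
      funext x
      rw [EuclideanSpace.inner_single_left]
      simp
    rwa [e] at this
  -- the main inequality
  have main : ∀ f : Euc n → ℝ, ContDiff ℝ 1 f → MemLp f 2 μ →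
      MemLp (fun x => ‖fderiv ℝ f x‖) 2 μ → ProbabilityTheory.variance f μ ≤ 72 * Real.exp 2 *
        ∑ i, ProbabilityTheory.variance (fun x : Euc n => x i) μ * ∫ x, pderiv f i x ^ 2 ∂μ := by
    intro f hf h2 h3
    have hv : ∀ i, ProbabilityTheory.variance (fun x : Euc n => x i) μ =
        (∫ x, x i ^ 2 ∂μ) - (∫ x, x i ∂μ) ^ 2 := fun i => by
      rw [ProbabilityTheory.variance_eq_sub (hcoord i)]
      rfl
    simp_rw [hv]
    rw [ProbabilityTheory.variance_eq_sub h2]
    have h4 := h3.integrable_sq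
    rw [hμ'] at hP hcoord h2 h4 ⊢
    exact Pool.Agent.KS6_97.Unc.orf_var hg' ho' hP hcoord f hf h2 h4
  have hfd : ∀ (f : Euc n → ℝ) (x : Euc n), ‖fderiv ℝ f x‖ ^ 2 = ∑ i, pderiv f i x ^ 2 :=
    fun f x => Pool.Agent.Q190.EM.norm_fd (fderiv ℝ f x)
  have hexp : 72 * Real.exp 2 ≤ 533 := by
    have h2 := Real.exp_one_lt_d9
    have h3 : Real.exp 2 = Real.exp 1 ^ 2 := by
      rw [← Real.exp_nat_mul]
      norm_num
    rw [h3]
    nlinarith [Real.exp_pos 1]
  -- from variances of the coordinates to the Poincare inequality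
  have poin : ∀ s : ℝ, 0 < s → (∀ i, ProbabilityTheory.variance (fun x : Euc n => x i) μ ≤ s) →
      PoincareLe μ (533 * s) := by
    intro s hs hv f hf h2 h3
    have hpi : ∀ i, Integrable (fun x => pderiv f i x ^ 2) μ := fun i =>
      Pool.Agent.KS6_97.Unc.pd_sq_integrable hf h3.integrable_sq i
    have hsum : ∫ x, ‖fderiv ℝ f x‖ ^ 2 ∂μ = ∑ i, ∫ x, pderiv f i x ^ 2 ∂μ := by
      simp_rw [hfd]
      exact integral_finsetSum _ fun i _ => hpi i
    refine (main f hf h2 h3).trans ?_
    rw [hsum]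
    have h4 : ∑ i, ProbabilityTheory.variance (fun x : Euc n => x i) μ * ∫ x, pderiv f i x ^ 2 ∂μ ≤
        s * ∑ i, ∫ x, pderiv f i x ^ 2 ∂μ := by
      rw [Finset.mul_sum]
      exact Finset.sum_le_sum fun i _ => mul_le_mul_of_nonneg_right (hv i)
        (integral_nonneg fun x => sq_nonneg _)
    have h5 : 0 ≤ s * ∑ i, ∫ x, pderiv f i x ^ 2 ∂μ :=
      mul_nonneg hs.le (Finset.sum_nonneg fun i _ => integral_nonneg fun x => sq_nonneg _)
    calc _ ≤ 72 * Real.exp 2 * (s * ∑ i, ∫ x, pderiv f i x ^ 2 ∂μ) :=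
          mul_le_mul_of_nonneg_left h4 (by positivity)
      _ ≤ 533 * (s * ∑ i, ∫ x, pderiv f i x ^ 2 ∂μ) := mul_le_mul_of_nonneg_right hexp h5
      _ = _ := by ring
  -- from Poincare to Cheeger
  have iso : ∀ s : ℝ, 0 < s → PoincareLe μ (533 * s) → CheegerGe μ (1 / (324 * Real.sqrt s)) := by
    intro s hs hPD S hS
    have hD : 0 < 533 * s := by positivity
    have h1 := Pool.Agent.Q188.TS.Iso.iso_gen hDen hμ hD (fun f hf h2 => by
      have hdc : Continuous fun x => ‖fderiv ℝ f x‖ ^ 2 :=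
        (hf.continuous_fderiv one_ne_zero).norm.pow 2
      rcases eq_or_ne (∫⁻ x, ENNReal.ofReal (‖fderiv ℝ f x‖ ^ 2) ∂μ) ⊤ with h4 | h4
      · rw [h4, ENNReal.mul_top (ENNReal.ofReal_pos.2 hD).ne']
        exact le_top
      · have hi : Integrable (fun x => ‖fderiv ℝ f x‖ ^ 2) μ := by
          refine ⟨hdc.aestronglyMeasurable, ?_⟩
          rw [hasFiniteIntegral_iff_ofReal (Filter.Eventually.of_forall fun x => sq_nonneg _)]
          exact lt_top_iff_ne_top.2 h4
        rw [← ofReal_integral_eq_lintegral_ofReal hi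
          (Filter.Eventually.of_forall fun x => sq_nonneg _), ← ENNReal.ofReal_mul hD.le]
        refine ENNReal.ofReal_le_ofReal ?_
        refine hPD f hf h2 ?_
        exact (memLp_two_iff_integrable_sq
          (hf.continuous_fderiv one_ne_zero).norm.aestronglyMeasurable).2 hi) hS
    refine le_trans (mul_le_mul_left ?_ _) h1
    refine ENNReal.ofReal_le_ofReal ?_
    rw [Real.sqrt_mul (by norm_num), div_div, ← mul_assoc]
    have hsX : 0 < Real.sqrt s := Real.sqrt_pos.2 hs
    have h533 : 14 * Real.sqrt 533 ≤ 324 := by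
      have : Real.sqrt 533 ≤ 23.1 := by
        rw [Real.sqrt_le_left (by norm_num)]
        norm_num
      linarith
    exact one_div_le_one_div_of_le (by positivity) (mul_le_mul_of_nonneg_right h533 hsX.le)
  refine ⟨main, fun s hs hv => ⟨poin s hs hv, iso s hs (poin s hs hv)⟩, fun s hs hcl => ?_⟩
  have hv : ∀ i, ProbabilityTheory.variance (fun x : Euc n => x i) μ ≤ s := by
    intro i
    have h1 := hcl (EuclideanSpace.single i 1) (by simp)
    have e : (fun x : Euc n => ⟪x, EuclideanSpace.single i (1 : ℝ)⟫_ℝ) = fun x => x i := by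
      funext x
      rw [EuclideanSpace.inner_single_right]
      simp
    rwa [e] at h1
  exact ⟨poin s hs hv, iso s hs (poin s hs hv)⟩

end Pool.Agent.Results.MP_6d896a_gt.Orthant
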