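import Pool.Agent.KS6_97.Sch.Fin2

/-!
# Isoperimetry of log-concave measures and Schatten norms of the covariance matrix

For every log-concave probability measure `μ` on `ℝⁿ` with covariance matrix `A` and every integer
`q ≥ 1` the Poincare constant of `μ` is at most `C q (tr A^q)^(1/q)`, with an absolute constant `C`, and
the isoperimetric constant is at least `1 / (C √(q (tr A^q)^(1/q)))`, for all measurable sets.

`q = 1` is the theorem of Kannan, Lovasz and Simonovits, `q = 2` the theorem of Lee and Vempala, and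
`q = log n` contains the theorem of Klartag. If `‖A‖ ≤ s` and `tr A ≤ r s` then `q = 1 + ⌊log r⌋` gives the
conjectured inequality with the loss `√(1 + log r)`: the dimension is replaced by the effective rank.
If `tr A^q ≤ D s^q` for fixed `q`, `D`, then the conjectured inequality holds for `μ` with a constant
depending only on `q` and `D`, in all dimensions.

Method. Gaussian channel `Y_t = t X + √t G` (stochastic localization), without stochastic calculus: for
`F(t, y)` in the algebra generated by the posterior means `E(u(X) | Y_t = y)`,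
`d/dt E F(t, Y_t) = E (D F)(t, Y_t)`, `D = ∂_t + Δ/2 + ∑ E(x_k) ∂_k`. The posterior covariance `A_t`
satisfies `D A = - A²`, its derivatives are the third central moments, and the Poincare inequality of
the posterior applied to quadratic functions gives `D tr A^q ≤ 6 q² C_P tr A^q`. The improved
Lichnerowicz inequality (Klartag) `C_P ≤ √(‖A_t‖ / t)` is proved for log-concave densities times a
Gaussian. The function `(L + tr A^q)^(-1/(2q))` shows that `E‖A_t‖ ≤ 17 (q² G)^(1/4) t^(-3/4)`,
`G = (tr Cov(μ)^q)^(1/q)`, so that for `|f| ≤ 1` the variance of `E(f(X) | Y_t)` is at most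
`68 (q² G t)^(1/4)`. With the theorem of E. Milman (module `Q86/EM` of the starting files) this bounds
the Poincare constant; unbounded supports are treated by truncation, and the passage to measurable
sets is module `Q289/LD`.
-/

set_option autoImplicit false

namespace Pool.Agent.Results.MP_6d896a_gt.SchattenCovariance

open MeasureTheory Set
open scoped ENNReal InnerProductSpace

/-- Euclidean space of dimension `n` -/
abbrev Euc (n : ℕ) : Type := EuclideanSpace ℝ (Fin n)

/-- `g` is nonnegative, measurable and log-concave -/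
structure LogConcave {n : ℕ} (g : Euc n → ℝ) : Prop where
  nonneg : ∀ x, 0 ≤ g x
  meas : Measurable g
  logc : ∀ x y, ∀ t : ℝ, 0 < t → t < 1 → g x ^ (1 - t) * g y ^ t ≤ g ((1 - t) • x + t • y)

/-- the covariance matrix of `μ` -/
noncomputable def covMat {n : ℕ} (μ : Measure (Euc n)) : Matrix (Fin n) (Fin n) ℝ :=
  Matrix.of fun i j => ProbabilityTheory.covariance (fun x : Euc n => x i) (fun x => x j) μ

/-- `(tr A^q)^(1/q)` for the covariance matrix `A` of `μ` -/
noncomputable def schatten {n : ℕ} (μ : Measure (Euc n)) (q : ℕ) : ℝ :=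
  ((covMat μ) ^ q).trace ^ ((1 : ℝ) / q)

/-- the covariance matrix of `μ` has norm at most `s` -/
def CovLe {n : ℕ} (μ : Measure (Euc n)) (s : ℝ) : Prop :=
  ∀ θ : Euc n, ‖θ‖ = 1 → ProbabilityTheory.variance (fun x => ⟪x, θ⟫_ℝ) μ ≤ s

/-- Poincare inequality: `Var f ≤ D E ‖∇ f‖²` for all `C¹` functions with `f, ‖∇ f‖ ∈ L²(μ)`. -/
def PoincareLe {n : ℕ} (μ : Measure (Euc n)) (D : ℝ) : Prop :=
  ∀ f : Euc n → ℝ, ContDiff ℝ 1 f → MemLp f 2 μ → MemLp (fun x => ‖fderiv ℝ f x‖) 2 μ →
    ProbabilityTheory.variance f μ ≤ D * ∫ x, ‖fderiv ℝ f x‖ ^ 2 ∂μ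

/-- Minkowski (exterior) boundary measure `μ⁺(S)` -/
noncomputable def bdry {n : ℕ} (μ : Measure (Euc n)) (S : Set (Euc n)) : ℝ≥0∞ :=
  Filter.liminf (fun ε : ℝ => (μ (Metric.thickening ε S) - μ S) / ENNReal.ofReal ε)
    (nhdsWithin 0 (Set.Ioi 0))

/-- the isoperimetric (Cheeger) constant of `μ` is at least `c`: `c min(μ S, μ Sᶜ) ≤ μ⁺(S)` for all
measurable sets `S` -/
def CheegerGe {n : ℕ} (μ : Measure (Euc n)) (c : ℝ) : Prop :=
  ∀ S : Set (Euc n), MeasurableSet S → ENNReal.ofReal c * min (μ S) (μ Sᶜ) ≤ bdry μ S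

/-- **Schatten norm bounds for the Poincare and isoperimetric constants of log-concave measures.**
There is an absolute constant `C` such that for all `n`, every log-concave probability measure `μ` on
`ℝⁿ` and every integer `q ≥ 1`, with `A` the covariance matrix of `μ` and `G = (tr A^q)^(1/q)`:
(1) the Poincare constant of `μ` is at most `C q G` and the isoperimetric constant is at least
`1 / (C √(q G))`;
(2) if the norm of `A` is at most `s` and `tr A ≤ r s`, `r ≥ 1`, then the Poincare constant is at most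
`C (1 + log r) s` and the isoperimetric constant is at least `1 / (C √(1 + log r) √s)`. -/
theorem result : ∃ C : ℝ, 0 < C ∧ ∀ (n : ℕ) (g : Euc n → ℝ), LogConcave g →
    ∀ μ : Measure (Euc n), μ = volume.withDensity (fun x => ENNReal.ofReal (g x)) →
    IsProbabilityMeasure μ →
    (∀ q : ℕ, 1 ≤ q →
      PoincareLe μ (C * (q * schatten μ q)) ∧
      CheegerGe μ (1 / (C * Real.sqrt (q * schatten μ q)))) ∧
    (∀ s r : ℝ, 0 < s → 1 ≤ r → CovLe μ s → (covMat μ).trace ≤ r * s →
      PoincareLe μ (C * (1 + Real.log r) * s) ∧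
      CheegerGe μ (1 / (C * Real.sqrt (1 + Real.log r) * Real.sqrt s))) := by
  obtain ⟨C0, hC0, hfull⟩ := Pool.Agent.KS6_97.Sch.full
  -- the constant
  obtain ⟨C, hCdef⟩ : ∃ C : ℝ, C = 3 * C0 + 14 * Real.sqrt (3 * C0) := ⟨_, rfl⟩
  have hs3 : 0 < Real.sqrt (3 * C0) := Real.sqrt_pos.2 (by positivity)
  have hC : 0 < C := by
    rw [hCdef]
    positivity
  have hC3 : 3 * C0 ≤ C := by
    rw [hCdef]
    linarith
  have hC14 : 14 * Real.sqrt (3 * C0) ≤ C := by
    rw [hCdef]
    linarith
  refine ⟨C, hC, ?_⟩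
  intro n g hg μ hμ hP
  have hg' : Pool.Agent.Q188.TS.LCF g := ⟨hg.nonneg, hg.meas, hg.logc⟩
  have hμ' : μ = Pool.Agent.H212R2.KLS.mu g := hμ
  have hDen : Q289.LD.Den (κ := Fin n) g := by
    refine ⟨hg.nonneg, hg.meas, hg.logc, ?_⟩
    have h1 : μ univ = 1 := measure_univ
    rw [hμ, withDensity_apply _ MeasurableSet.univ, Measure.restrict_univ] at h1
    rw [integral_eq_lintegral_of_nonneg_ae (Filter.Eventually.of_forall hg.nonneg)
      hg.meas.aestronglyMeasurable, h1, ENNReal.toReal_one]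
  have hlin : ∀ w : Euc n, MemLp (fun x => ⟪w, x⟫_ℝ) 2 μ := fun w =>
    Q289.LD.memLp_lin Q289.LD.tLIM hDen hμ w
  have hcov : covMat μ = Pool.Agent.KS6_97.Sch.cvm μ := Pool.Agent.KS6_97.Sch.cvm_eq hlin
  obtain ⟨lam, hl0, hltr, hls⟩ := Pool.Agent.KS6_97.Sch.cvm_eig hlin
  -- the Poincare inequality
  have main : ∀ q : ℕ, 1 ≤ q → ∀ f : Euc n → ℝ, ContDiff ℝ 1 f → MemLp f 2 μ →
      MemLp (fun x => ‖fderiv ℝ f x‖) 2 μ → ProbabilityTheory.variance f μ ≤
        C0 * (q * schatten μ q) * ∫ x, ‖fderiv ℝ f x‖ ^ 2 ∂μ := by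
    intro q hq f hf h2 h3
    have hq0 : q ≠ 0 := by omega
    have htr0 : 0 ≤ (covMat μ ^ q).trace := by
      rw [hcov, hltr]
      exact Finset.sum_nonneg fun i _ => pow_nonneg (hl0 i) q
    have hG0 : 0 ≤ schatten μ q := Real.rpow_nonneg htr0 _
    have hGq : (Pool.Agent.KS6_97.Sch.cvm μ ^ q).trace ≤ schatten μ q ^ q := by
      rw [← hcov]
      unfold schatten
      rw [one_div, Real.rpow_inv_natCast_pow htr0 hq0]
    rw [ProbabilityTheory.variance_eq_sub h2]
    rw [hμ'] at hP hlin hG0 hGq h2 h3 ⊢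
    exact hfull n g hg' hP hlin q hq0 _ hG0 hGq f hf h2 h3.integrable_sq
  have hmono : ∀ D D' : ℝ, D ≤ D' → (∀ f : Euc n → ℝ, ContDiff ℝ 1 f → MemLp f 2 μ →
      MemLp (fun x => ‖fderiv ℝ f x‖) 2 μ → ProbabilityTheory.variance f μ ≤
        D * ∫ x, ‖fderiv ℝ f x‖ ^ 2 ∂μ) → PoincareLe μ D' := by
    intro D D' hDD h f hf h2 h3
    refine (h f hf h2 h3).trans ?_
    exact mul_le_mul_of_nonneg_right hDD (integral_nonneg fun x => sq_nonneg _)
  -- from Poincare to Cheeger
  have iso : ∀ X : ℝ, 0 ≤ X → PoincareLe μ (3 * C0 * X) →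
      CheegerGe μ (1 / (C * Real.sqrt X)) := by
    intro X hX hPD S hS
    rcases hX.eq_or_lt with h | h
    · rw [← h, Real.sqrt_zero, mul_zero, div_zero, ENNReal.ofReal_zero, zero_mul]
      exact zero_le
    have hD : 0 < 3 * C0 * X := by positivity
    have h1 := Pool.Agent.Q188.TS.Iso.iso_gen hDen hμ hD (fun f hf h2 => by
      have hdc : Continuous fun x => ‖fderiv ℝ f x‖ ^ 2 :=
        (hf.continuous_fderiv one_ne_zero).norm.pow 2
      rcases eq_or_ne (∫⁻ x, ENNReal.ofReal (‖fderiv ℝ f x‖ ^ 2) ∂μ) ⊤ with h4 | h4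
      · rw [h4, ENNReal.mul_top (ENNReal.ofReal_pos.2 hD).ne']
        exact le_top
      · have hi : Integrable (fun x => ‖fderiv ℝ f x‖ ^ 2) μ := by
          refine ⟨hdc.aestronglyMeasurable, ?_⟩
          rw [hasFiniteIntegral_iff_ofReal (Filter.Eventually.of_forall fun x => sq_nonneg _)]
          exact lt_top_iff_ne_top.2 h4
        rw [← ofReal_integral_eq_lintegral_ofReal hi
          (Filter.Eventually.of_forall fun x => sq_nonneg _), ← ENNReal.ofReal_mul hD.le]
        refine ENNReal.ofReal_le_ofReal ?_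
        refine hPD f hf h2 ?_
        exact (memLp_two_iff_integrable_sq
          (hf.continuous_fderiv one_ne_zero).norm.aestronglyMeasurable).2 hi) hS
    refine le_trans (mul_le_mul_left ?_ _) h1
    refine ENNReal.ofReal_le_ofReal ?_
    rw [Real.sqrt_mul (by positivity), div_div, ← mul_assoc]
    have hsX : 0 < Real.sqrt X := Real.sqrt_pos.2 h
    exact one_div_le_one_div_of_le (by positivity) (mul_le_mul_of_nonneg_right hC14 hsX.le)
  refine ⟨fun q hq => ?_, fun s r hs hr hcl htr => ?_⟩
  · have htr0 : 0 ≤ (covMat μ ^ q).trace := by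
      rw [hcov, hltr]
      exact Finset.sum_nonneg fun i _ => pow_nonneg (hl0 i) q
    have hG0 : 0 ≤ (q : ℝ) * schatten μ q :=
      mul_nonneg (Nat.cast_nonneg q) (Real.rpow_nonneg htr0 _)
    refine ⟨hmono _ _ ?_ (main q hq), iso _ hG0 (hmono _ _ ?_ (main q hq))⟩
    · exact mul_le_mul_of_nonneg_right (by linarith) hG0
    · exact mul_le_mul_of_nonneg_right (by linarith) hG0
  · have hsum : ∑ i, lam i ≤ r * s := by
      have h1 := hltr 1
      rw [pow_one, ← hcov] at h1
      simp only [pow_one] at h1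
      rw [← h1]
      exact htr
    obtain ⟨q, hq1, hq⟩ := Pool.Agent.KS6_97.Sch.eff_rank hl0 hs hr (hls s hcl) hsum
    have hsch : schatten μ q = (∑ i, lam i ^ q) ^ ((1 : ℝ) / q) := by
      unfold schatten
      rw [hcov, hltr]
    rw [← hsch] at hq
    have hX : 0 ≤ (1 + Real.log r) * s := by
      have := Real.log_nonneg hr
      positivity
    have hle : C0 * (q * schatten μ q) ≤ 3 * C0 * ((1 + Real.log r) * s) := by
      have := mul_le_mul_of_nonneg_left hq hC0.le
      linarith
    have hP3 := hmono _ _ hle (main q hq1)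
    refine ⟨hmono _ _ ?_ (main q hq1), ?_⟩
    · refine hle.trans ?_
      rw [mul_assoc C]
      exact mul_le_mul_of_nonneg_right hC3 hX
    · have h1 := iso _ hX hP3
      rw [Real.sqrt_mul (by linarith [Real.log_nonneg hr]), ← mul_assoc] at h1
      exact h1

end Pool.Agent.Results.MP_6d896a_gt.SchattenCovariance
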