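import Pool.Agent.KS6_97.Unc.FUA
import Pool.Agent.KS6_97.Unc.LI

/-!
# The Kannan-Lovasz-Simonovits inequality for unconditional log-concave measures

A density `g` on `ℝ^N` is unconditional if it is invariant under the changes of signs of the
coordinates. The inequality of Kannan, Lovasz and Simonovits is proved, with an explicit absolute
constant, for all unconditional log-concave probability measures on `ℝ^N` (for example the uniform
measures on all unconditional convex bodies), all `N`, and for all their images under affine maps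
`ℝ^N → ℝⁿ`, in particular for all their marginals (which need not have any symmetry). The constant
known before contained a factor `log N` (Klartag 2009; Barthe and Cordero-Erausquin 2013) for these
measures, or `√(log n)` for the isoperimetric constant of general log-concave measures (Klartag 2023).

Method. (1) For every log-concave probability measure `e^(-V) dx` with `V` smooth and strictly convex
the Poincare constant is at most `‖E (Hess V)⁻¹‖_op` (mean of the inverse curvature). Indeed if `f` is a
nearly optimal function, `λ⁻¹` the Poincare constant, then by Bochner's formula and the Poincare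
inequality for the components of `∇ f`, `E ⟨Hess V ∇ f, ∇ f⟩ ≤ λ |E ∇ f|²`, and
`|E ∇ f|² ≤ ‖E (Hess V)⁻¹‖ E ⟨Hess V ∇ f, ∇ f⟩` by the inequality of Cauchy and Schwarz. (2) Even
functions: on the orthant `g` is nonincreasing in each coordinate, and the substitution `x_i = ψ(w_i)`,
`ψ' = exp (w - √(1 + w²)) ∈ [e⁻¹, 1]`, with `ψ` convex, turns it into a log-concave density times
`exp (-∑ √(1 + w_i²))`. By (1) the Poincare constant in the variables `w` is at most the largest mean
of `(1 + w_i²)^(3/2)`, and (1), applied to the function `(1 + w_i²)^(3/4)`, also bounds these means if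
`E w_i²` is small. So `Var f ≤ 18 e² s E |∇ f|²` on the orthant, if `E x_i² ≤ s` for all `i`.
(3) Functions which are odd in a coordinate `x_i`: their modulus is even and vanishes for `x_i = 0`, so
that `E |f| 1[|x_i| < 2√s] ≤ 2√s E |∇ f|`; together with (2) for `|f|` this gives
`E f² ≤ 460 s E |∇ f|²`. (4) All functions: the decomposition of `f` into its parts of given parities
(characters of the group of the changes of signs) is orthogonal for `E f²` and for `E |∇ f|²`.
(5) Unbounded supports by truncation; anisotropic form and affine images by scaling of the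
coordinates; all measurable sets by the theorem of Buser and Ledoux (module `Q289/LD` of the starting
files).

Authors: helper97, with helper6 (modules `CV`, `EV`, `DG`) and helper12 (module `WA`).
-/

set_option autoImplicit false

namespace Pool.Agent.Results.MP_6d896a_gt.Unconditional

open MeasureTheory Set
open scoped ENNReal InnerProductSpace

/-- Euclidean space of dimension `n` -/
abbrev Euc (n : ℕ) : Type := EuclideanSpace ℝ (Fin n)

/-- `g` is nonnegative, measurable and log-concave -/
structure LogConcave {n : ℕ} (g : Euc n → ℝ) : Prop where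
  nonneg : ∀ x, 0 ≤ g x
  meas : Measurable g
  logc : ∀ x y, ∀ t : ℝ, 0 < t → t < 1 → g x ^ (1 - t) * g y ^ t ≤ g ((1 - t) • x + t • y)

/-- `g x` depends only on the absolute values of the coordinates of `x` -/
def UnconditionalFn {n : ℕ} (g : Euc n → ℝ) : Prop :=
  ∀ x y : Euc n, (∀ i, |x i| = |y i|) → g x = g y

/-- partial derivative -/
noncomputable def pderiv {n : ℕ} (f : Euc n → ℝ) (i : Fin n) (x : Euc n) : ℝ :=
  fderiv ℝ f x (EuclideanSpace.single i 1)

/-- the covariance matrix of `μ` has norm at most `s` -/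
def CovLe {n : ℕ} (μ : Measure (Euc n)) (s : ℝ) : Prop :=
  ∀ θ : Euc n, ‖θ‖ = 1 → ProbabilityTheory.variance (fun x => ⟪x, θ⟫_ℝ) μ ≤ s

/-- Poincare inequality: `Var f ≤ D E ‖∇ f‖²` for all `C¹` functions with `f, ‖∇ f‖ ∈ L²(μ)`. -/
def PoincareLe {n : ℕ} (μ : Measure (Euc n)) (D : ℝ) : Prop :=
  ∀ f : Euc n → ℝ, ContDiff ℝ 1 f → MemLp f 2 μ → MemLp (fun x => ‖fderiv ℝ f x‖) 2 μ →
    ProbabilityTheory.variance f μ ≤ D * ∫ x, ‖fderiv ℝ f x‖ ^ 2 ∂μ

/-- Minkowski (exterior) boundary measure `μ⁺(S)` -/
noncomputable def bdry {n : ℕ} (μ : Measure (Euc n)) (S : Set (Euc n)) : ℝ≥0∞ :=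
  Filter.liminf (fun ε : ℝ => (μ (Metric.thickening ε S) - μ S) / ENNReal.ofReal ε)
    (nhdsWithin 0 (Set.Ioi 0))

/-- the isoperimetric (Cheeger) constant of `μ` is at least `c`: `c min(μ S, μ Sᶜ) ≤ μ⁺(S)` for all
measurable sets `S` -/
def CheegerGe {n : ℕ} (μ : Measure (Euc n)) (c : ℝ) : Prop :=
  ∀ S : Set (Euc n), MeasurableSet S → ENNReal.ofReal c * min (μ S) (μ Sᶜ) ≤ bdry μ S

/-- **The KLS inequality for unconditional log-concave measures, with an absolute constant.**
For all `N`, every unconditional log-concave probability density `g` on `ℝ^N`, `μ = g dx`: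
(1) `Var f ≤ 460 ∑ i, E x_i² E (∂_i f)²` for all `C¹` functions with `f, ‖∇ f‖ ∈ L²(μ)`;
(2) if the covariance matrix of `μ` has norm at most `s`, then the Poincare constant of `μ` is at most
`460 s` and its isoperimetric constant is at least `1 / (301 √s)`;
(3) the same is true for the image of `μ` under every affine map `x ↦ T x + b` from `ℝ^N` to `ℝⁿ`, with
`s` a bound for the norm of the covariance matrix of the image. -/
theorem result (N : ℕ) (g : Euc N → ℝ) (hg : LogConcave g) (hu : UnconditionalFn g)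
    (μ : Measure (Euc N)) (hμ : μ = volume.withDensity (fun x => ENNReal.ofReal (g x)))
    (hP : IsProbabilityMeasure μ) :
    (∀ f : Euc N → ℝ, ContDiff ℝ 1 f → MemLp f 2 μ → MemLp (fun x => ‖fderiv ℝ f x‖) 2 μ →
      ProbabilityTheory.variance f μ ≤
        460 * ∑ i, (∫ x, x i ^ 2 ∂μ) * ∫ x, pderiv f i x ^ 2 ∂μ) ∧
    (∀ s : ℝ, 0 < s → CovLe μ s →
      PoincareLe μ (460 * s) ∧ CheegerGe μ (1 / (301 * Real.sqrt s))) ∧
    (∀ (n : ℕ) (T : Euc N →L[ℝ] Euc n) (b : Euc n) (s : ℝ), 0 < s →
      CovLe (μ.map fun x => T x + b) s →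
      PoincareLe (μ.map fun x => T x + b) (460 * s) ∧
      CheegerGe (μ.map fun x => T x + b) (1 / (301 * Real.sqrt s))) := by
  have hg' : Pool.Agent.Q188.TS.LCF g := ⟨hg.nonneg, hg.meas, hg.logc⟩
  have hfl : ∀ (S : Finset (Fin N)) (x : Euc N), g (Pool.Agent.KS6_97.Unc.fl S x) = g x := by
    intro S x
    refine hu _ _ fun i => ?_
    rw [Pool.Agent.KS6_97.Unc.fl_apply]
    split_ifs
    · rw [abs_neg]
    · rfl
  have hμ' : μ = Pool.Agent.H212R2.KLS.mu g := hμ
  have hDenG : ∀ {h : Euc N → ℝ}, Pool.Agent.Q188.TS.LCF h →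
      IsProbabilityMeasure (Pool.Agent.H212R2.KLS.mu h) → Q289.LD.Den (κ := Fin N) h := by
    intro h hh hPr
    refine ⟨hh.nonneg, hh.meas, hh.logc, ?_⟩
    have h1 : Pool.Agent.H212R2.KLS.mu h univ = 1 := measure_univ
    unfold Pool.Agent.H212R2.KLS.mu at h1
    rw [withDensity_apply _ MeasurableSet.univ, Measure.restrict_univ] at h1
    rw [integral_eq_lintegral_of_nonneg_ae (Filter.Eventually.of_forall hh.nonneg)
      hh.meas.aestronglyMeasurable, h1, ENNReal.toReal_one]
  have hP' : IsProbabilityMeasure (Pool.Agent.H212R2.KLS.mu g) := by rwa [← hμ']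
  have hlin : ∀ w : Euc N, MemLp (fun x => ⟪w, x⟫_ℝ) 2 μ := fun w =>
    Q289.LD.memLp_lin Q289.LD.tLIM (hDenG hg' hP') hμ w
  have hcoord : ∀ i, MemLp (fun x : Euc N => x i) 2 μ := fun i => by
    have := hlin (EuclideanSpace.single i 1)
    have e : (fun x : Euc N => ⟪EuclideanSpace.single i (1 : ℝ), x⟫_ℝ) = fun x => x i := by
      funext x
      rw [EuclideanSpace.inner_single_left]
      simp
    rwa [e] at this
  have hcoord' := hcoord
  rw [hμ'] at hcoord'
  -- the isotropic position
  obtain ⟨h, B, hh, hhf, hhP, hhc, hh1, hhB⟩ :=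
    Pool.Agent.KS6_97.Unc.iso_pos hg' hfl hP' hcoord'
  set ν : Measure (Euc N) := Pool.Agent.H212R2.KLS.mu h with hν
  have hvar : ∀ w : Euc N, ProbabilityTheory.variance (fun z => ⟪z, w⟫_ℝ) ν = ‖w‖ ^ 2 := by
    intro w
    rw [Pool.Agent.KS6_97.Unc.var_lin hh hhf hhc w, EuclideanSpace.norm_sq_eq]
    refine Finset.sum_congr rfl fun i _ => ?_
    rw [hh1, mul_one, Real.norm_eq_abs, sq_abs]
  have hPν : ∀ F : Euc N → ℝ, ContDiff ℝ 1 F → MemLp F 2 ν → MemLp (fun x => ‖fderiv ℝ F x‖) 2 ν →
      ProbabilityTheory.variance F ν ≤ 460 * ∫ x, ‖fderiv ℝ F x‖ ^ 2 ∂ν := by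
    intro F hF h2 h3
    have h4 := Pool.Agent.KS6_97.Unc.fu hh hhf hhP hhc one_pos (fun i => (hh1 i).le) F hF h2
      h3.integrable_sq
    rw [mul_one] at h4
    rw [ProbabilityTheory.variance_eq_sub h2]
    exact h4
  have hCν : ∀ A : Set (Euc N), MeasurableSet A →
      ENNReal.ofReal (1 / 301) * min (ν A) (ν Aᶜ) ≤ Pool.Agent.KS6_97.Unc.LI.bd ν A := by
    intro A hA
    have h1 := Pool.Agent.Q188.TS.Iso.iso_gen (hDenG hh hhP) (μ := ν) rfl
      (show (0 : ℝ) < 460 by norm_num) (fun f hf h2 => by
      have hdc : Continuous fun x => ‖fderiv ℝ f x‖ ^ 2 :=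
        (hf.continuous_fderiv one_ne_zero).norm.pow 2
      rcases eq_or_ne (∫⁻ x, ENNReal.ofReal (‖fderiv ℝ f x‖ ^ 2) ∂ν) ⊤ with h4 | h4
      · rw [h4, ENNReal.mul_top (ENNReal.ofReal_pos.2 (by norm_num)).ne']
        exact le_top
      · have hi : Integrable (fun x => ‖fderiv ℝ f x‖ ^ 2) ν := by
          refine ⟨hdc.aestronglyMeasurable, ?_⟩
          rw [hasFiniteIntegral_iff_ofReal (Filter.Eventually.of_forall fun x => sq_nonneg _)]
          exact lt_top_iff_ne_top.2 h4
        rw [← ofReal_integral_eq_lintegral_ofReal hi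
          (Filter.Eventually.of_forall fun x => sq_nonneg _), ← ENNReal.ofReal_mul (by norm_num)]
        refine ENNReal.ofReal_le_ofReal ?_
        refine hPν f hf h2 ?_
        exact (memLp_two_iff_integrable_sq
          (hf.continuous_fderiv one_ne_zero).norm.aestronglyMeasurable).2 hi) hA
    refine le_trans (mul_le_mul_left (ENNReal.ofReal_le_ofReal ?_) _) h1
    rw [div_div]
    refine one_div_le_one_div_of_le (by positivity) ?_
    have : Real.sqrt 460 ≤ 21.5 := by
      rw [Real.sqrt_le_left (by norm_num)]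
      norm_num
    linarith
  -- affine images of `ν`
  have hA : ∀ (n : ℕ) (T : Euc N →L[ℝ] Euc n) (b : Euc n) (s : ℝ), 0 < s →
      CovLe (ν.map fun x => T x + b) s →
      PoincareLe (ν.map fun x => T x + b) (460 * s) ∧
      CheegerGe (ν.map fun x => T x + b) (1 / (301 * Real.sqrt s)) := by
    intro n T b s hs hcov
    have hT := Pool.Agent.KS6_97.Unc.LI.norm_T hvar T b hcov
    refine ⟨fun f hf h2 h3 => ?_, fun S hS => ?_⟩
    · exact Pool.Agent.KS6_97.Unc.LI.poin (by norm_num) hPν T b hs hT f hf h2 h3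
    · have h5 := Pool.Agent.KS6_97.Unc.LI.chee hCν T b hs hT hS
      rw [div_div] at h5
      exact h5
  have hBm : Measurable B := B.continuous.measurable
  have hA2 : ∀ (n : ℕ) (T : Euc N →L[ℝ] Euc n) (b : Euc n) (s : ℝ), 0 < s →
      CovLe (μ.map fun x => T x + b) s →
      PoincareLe (μ.map fun x => T x + b) (460 * s) ∧
      CheegerGe (μ.map fun x => T x + b) (1 / (301 * Real.sqrt s)) := by
    intro n T b s hs hcov
    have e : μ.map (fun x => T x + b) = ν.map fun x => (T.comp B) x + b := by
      rw [hμ', hhB, Measure.map_map (by fun_prop) hBm]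
      rfl
    rw [e] at hcov ⊢
    exact hA n (T.comp B) b s hs hcov
  refine ⟨fun f hf h2 h3 => ?_, fun s hs hcov => ?_, hA2⟩
  · rw [ProbabilityTheory.variance_eq_sub h2]
    rw [hμ'] at h2 h3 ⊢
    exact Pool.Agent.KS6_97.Unc.fu_an hg' hfl hP' hcoord' f hf h2 h3.integrable_sq
  · have e : μ.map (fun x => (ContinuousLinearMap.id ℝ (Euc N)) x + 0) = μ := by
      have e2 : (fun x : Euc N => (ContinuousLinearMap.id ℝ (Euc N)) x + 0) = id := by
        funext x
        simp
      rw [e2, Measure.map_id]
    have h6 := hA2 N (ContinuousLinearMap.id ℝ (Euc N)) 0 s hs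
    rw [e] at h6
    exact h6 hcov

end Pool.Agent.Results.MP_6d896a_gt.Unconditional
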